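import Pool.Agent.NTW.StmtsB

/-!
# NTW squad, row HSK: exactly one negative coordinate
-/

set_option autoImplicit false

namespace Pool.Agent.NTW.H10

open Pool.Agent.PFS Pool.Agent.PFJ Pool.Agent.NTS Pool.Agent.NTW

theorem hsk (hin : HinStmt) (alw : AlwStmt) : HskStmt := by
  intro n C Γ K c τ hD v v' ν M hs
  have hneg : ∃ k, ν k < 0 := by
    by_contra hcon
    have hnn : ∀ i, 0 ≤ ν i := by
      intro i
      by_contra hi
      exact hcon ⟨i, not_le.mp hi⟩
    have hall : ∀ i ∈ (Finset.univ : Finset (Fin K)), ν i = 0 :=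
      (Finset.sum_eq_zero_iff_of_nonneg (fun i _ => hnn i)).mp hs.sum
    exact hs.nz (funext fun i => hall i (Finset.mem_univ i))
  obtain ⟨k, hk⟩ := hneg
  have hws : ∀ i, (∃ m, m ≠ i ∧ ν m < 0) → v i ∈ Ws C τ v' := by
    intro i hi
    have h := hin n C Γ K c τ hD v v' ν M hs i hi
    by_cases hτ : τ i = i
    · obtain ⟨r, hr, hv⟩ := h.1 hτ
      have hmem : v i ∈ Lf C τ v' i := by
        unfold Lf
        rw [if_pos hτ]
        have hvi : v i = r⁻¹ • v' i := by
          rw [hv, smul_smul, inv_mul_cancel₀ hr.ne', one_smul]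
        rw [hvi]
        exact Submodule.smul_mem _ _ (Submodule.mem_span_singleton_self _)
      exact (le_iSup (fun j => Lf C τ v' j) i) hmem
    · obtain ⟨j, _, hj⟩ := h.2 hτ
      exact (le_iSup (fun j => Lf C τ v' j) j) hj
  have hnot : ¬ ∀ i, v i ∈ Ws C τ v' := by
    intro hall
    exact hs.ne (alw n C Γ K c τ hD v v' hs.tv hs.tv' hall).1
  have hpos : ∀ i, i ≠ k → 0 ≤ ν i := by
    intro i hik
    by_contra hi
    have hi' : ν i < 0 := not_le.mp hi
    apply hnot
    intro a
    by_cases hak : a = k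
    · exact hws a ⟨i, fun h => hik (h.trans hak), hi'⟩
    · exact hws a ⟨k, fun h => hak h.symm, hk⟩
  have hmk : ∀ i, i ≠ k → ∃ m, m ≠ i ∧ ν m < 0 := fun i hi => ⟨k, fun h => hi h.symm, hk⟩
  refine ⟨k, ?_⟩
  exact
    { toHSP := hs
      neg := hk
      pos := hpos
      out := by
        intro hout
        apply hnot
        intro a
        by_cases hak : a = k
        · rw [hak]
          exact hout
        · exact hws a (hmk a hak)
      lab := fun i hi hτ => (hin n C Γ K c τ hD v v' ν M hs i (hmk i hi)).1 hτ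
      cls := fun i hi hτ => (hin n C Γ K c τ hD v v' ν M hs i (hmk i hi)).2 hτ }

end Pool.Agent.NTW.H10
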