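import Pool.Agent.NTW.StmtsA

/-!
# Squad NTW, row PBF: basic facts on pair boxes
-/

set_option autoImplicit false

open Matrix Filter Topology

namespace Pool.Agent.NTW.H10

open Pool.Agent.PFS Pool.Agent.PFJ Pool.Agent.NTS

theorem sum_split {M : Type} [AddCommGroup M] {K : ℕ} (f : Fin K → M) {i j : Fin K}
    (hij : i ≠ j) : ∑ m, f m = f i + f j + ∑ m ∈ (Finset.univ.erase i).erase j, f m := by
  rw [← Finset.add_sum_erase Finset.univ f (Finset.mem_univ i),
    ← Finset.add_sum_erase (Finset.univ.erase i) f
      (Finset.mem_erase.2 ⟨hij.symm, Finset.mem_univ j⟩), add_assoc]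

theorem mem_E {K : ℕ} {i j m : Fin K} :
    m ∈ (Finset.univ.erase i).erase j ↔ m ≠ j ∧ m ≠ i := by
  rw [Finset.mem_erase, Finset.mem_erase]
  constructor
  · rintro ⟨h1, h2, -⟩
    exact ⟨h1, h2⟩
  · rintro ⟨h1, h2⟩
    exact ⟨h1, h2, Finset.mem_univ m⟩

theorem comb {n K : ℕ} (w : Fin K → V n) {i j : Fin K} (hij : i ≠ j) (a b : ℝ) (r : Fin K → ℝ) :
    ∑ m, (if m = i then a else if m = j then b else r m) • w m =
      a • w i + b • w j + ∑ m ∈ (Finset.univ.erase i).erase j, r m • w m := by
  rw [sum_split _ hij, if_pos rfl, if_neg hij.symm, if_pos rfl]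
  congr 1
  refine Finset.sum_congr rfl fun m hm => ?_
  obtain ⟨h1, h2⟩ := mem_E.1 hm
  rw [if_neg h2, if_neg h1]

theorem pbf (fcs : FcsStmt) (nng : NngStmt) : PbfStmt := by
  intro n C hP K w hw i j hij
  have hcl : ∀ m, w m ∈ closure C := fun m => hw.cl m
  have hijcl : w i + w j ∈ closure C := hP.cl_add (hcl i) (hcl j)
  have hR : rst w i j ∈ closure C := hP.cl_sum fun m _ => hcl m
  have hlin : LinearIndependent ℝ ![w i, w j] := by
    have h1 := Pool.Agent.PFS.H60.lin n C hP (Fin K) w hw
    have h2 : LinearIndependent ℝ (w ∘ ![i, j]) := h1.comp _ (by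
      intro a b hab
      fin_cases a <;> fin_cases b
      · rfl
      · exact absurd hab hij
      · exact absurd hab hij.symm
      · rfl)
    have h3 : w ∘ ![i, j] = ![w i, w j] := by
      funext a
      fin_cases a <;> rfl
    rwa [h3] at h2
  have hfin : Module.finrank ℝ (Submodule.span ℝ ({w i, w j} : Set (V n))) = 2 := by
    have h1 := finrank_span_eq_card hlin
    rw [Fintype.card_fin] at h1
    have h2 : Set.range ![w i, w j] = ({w i, w j} : Set (V n)) := by
      rw [Matrix.range_cons, Matrix.range_cons, Matrix.range_empty, Set.union_empty]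
      rfl
    rwa [h2] at h1
  refine ⟨?_, ⟨Submodule.subset_span (by simp), Submodule.subset_span (by simp), ?_⟩, hfin⟩
  · intro L hL
    have hbox : ∀ v ∈ L, ∀ A : ℝ, 0 < A → v + A • rst w i j ∈ closure C → v ∈ closure C := by
      intro v hv A hA h
      have h1 := hP.cl_smul h (inv_pos.2 hA).le
      rw [smul_add, smul_smul, inv_mul_cancel₀ hA.ne', one_smul] at h1
      have h2 := hL.box _ (L.smul_mem _ hv) h1
      have h3 := hP.cl_smul h2 hA.le
      rwa [smul_smul, mul_inv_cancel₀ hA.ne', one_smul] at h3
    have hij_mem : w i + w j ∈ L := L.add_mem hL.left hL.right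
    have hunit : ∀ v ∈ L, ∃ M : ℝ, 0 < M ∧ M • (w i + w j) - v ∈ closure C := by
      intro v hv
      obtain ⟨M, hM, h1⟩ := hP.absorb hw.sum_mem v
      refine ⟨M, hM, hbox _ (L.sub_mem (L.smul_mem _ hij_mem) hv) M hM ?_⟩
      rw [sum_split w hij] at h1
      have e : M • (w i + w j) - v + M • rst w i j =
          M • (w i + w j + ∑ m ∈ (Finset.univ.erase i).erase j, w m) - v := by
        rw [smul_add M (w i + w j)]
        unfold rst
        abel
      rw [e]
      exact subset_closure h1
    have hUnt : Unt C L (w i + w j) := ⟨hij_mem, hijcl, hunit⟩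
    have h3 : ∀ v ∈ L, ∀ r : Fin K → ℝ,
        v + ∑ m ∈ (Finset.univ.erase i).erase j, r m • w m ∈ closure C →
        v ∈ closure C ∧ ∀ m, m ≠ i → m ≠ j → 0 ≤ r m := by
      intro v hv r h
      refine ⟨?_, ?_⟩
      · have hAr : ∀ m ∈ (Finset.univ.erase i).erase j,
            r m ≤ 1 + ∑ m ∈ (Finset.univ.erase i).erase j, |r m| := by
          intro m hm
          have h1 := Finset.single_le_sum (f := fun m => |r m|) (fun m _ => abs_nonneg _) hm
          have h2 := le_abs_self (r m)
          linarith
        have hApos : (0 : ℝ) < 1 + ∑ m ∈ (Finset.univ.erase i).erase j, |r m| := by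
          have : (0 : ℝ) ≤ ∑ m ∈ (Finset.univ.erase i).erase j, |r m| :=
            Finset.sum_nonneg fun m _ => abs_nonneg _
          linarith
        set A := 1 + ∑ m ∈ (Finset.univ.erase i).erase j, |r m| with hA
        refine hbox v hv A hApos ?_
        have e : v + A • rst w i j = (v + ∑ m ∈ (Finset.univ.erase i).erase j, r m • w m) +
            ∑ m ∈ (Finset.univ.erase i).erase j, (A - r m) • w m := by
          unfold rst
          rw [add_assoc, ← Finset.sum_add_distrib, Finset.smul_sum]
          congr 1
          refine Finset.sum_congr rfl fun m _ => ?_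
          rw [← add_smul]
          congr 1
          ring
        rw [e]
        exact hP.cl_add h (hP.cl_sum fun m hm => hP.cl_smul (hcl m) (by linarith [hAr m hm]))
      · intro m hmi hmj
        obtain ⟨M, hM, h1⟩ := hunit v hv
        have h2 := hP.cl_add h1 h
        have e : M • (w i + w j) - v +
            (v + ∑ m ∈ (Finset.univ.erase i).erase j, r m • w m) =
            ∑ m, (if m = i then M else if m = j then M else r m) • w m := by
          rw [comb w hij, smul_add]
          abel
        rw [e] at h2
        have h4 := nng n C hP (Fin K) w hw _ h2 m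
        rw [if_neg hmi, if_neg hmj] at h4
        exact h4
    refine ⟨hUnt, (fcs n C hP (w i + w j) hijcl).2.2.2.1 L hUnt, h3,
      ⟨hL.right, hL.left, fun v hv h => hL.box v hv ?_⟩,
      fun r hr => ⟨L.smul_mem _ hL.left, L.smul_mem _ hL.right, fun v hv h => (h3 v hv r h).1⟩,
      ?_⟩
    · unfold rst at h ⊢
      rw [Finset.erase_right_comm]
      exact h
    · rw [← hfin]
      refine Submodule.finrank_mono (Submodule.span_le.2 ?_)
      rintro x (rfl | rfl)
      · exact hL.left
      · exact hL.right
  · intro v hv h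
    obtain ⟨a, b, rfl⟩ := Submodule.mem_span_pair.1 hv
    have e : a • w i + b • w j + rst w i j =
        ∑ m, (if m = i then a else if m = j then b else 1) • w m := by
      have h1 := comb w hij a b (fun _ => 1)
      rw [h1]
      congr 1
      unfold rst
      refine Finset.sum_congr rfl fun m _ => ?_
      rw [one_smul]
    rw [e] at h
    have ha := nng n C hP (Fin K) w hw _ h i
    have hb := nng n C hP (Fin K) w hw _ h j
    rw [if_pos rfl] at ha
    rw [if_neg hij.symm, if_pos rfl] at hb
    exact hP.cl_add (hP.cl_smul (hcl i) ha) (hP.cl_smul (hcl j) hb)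

end Pool.Agent.NTW.H10
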